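import Pool.Agent.W747.MB.Defs

/-!
# Variation of `L j`, `X j` and `X 1` on the large disc (part `P_VAR` of `Pool.Agent.W747.MB.Defs`)
-/

set_option autoImplicit false
open Metric MeasureTheory Set

namespace Pool.Agent.W108.MB

open Pool.Agent.W747.MB

lemma pow_var {N : ℕ} (hN : 1 ≤ N) {r t : ℝ} (hr : 0 ≤ r) (ht : 0 ≤ t)
    (h : |t - r| ≤ r / (100 * N)) : |t ^ N - r ^ N| ≤ r ^ N / 50 := by
  have hN0 : (0 : ℝ) < N := by exact_mod_cast hN
  have hN1 : (1 : ℝ) ≤ N := by exact_mod_cast hN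
  rw [abs_le] at h
  set e : ℝ := 1 / (100 * N) with he
  have he0 : 0 < e := by positivity
  have he1 : e ≤ 1 / 100 := by
    rw [he]
    apply one_div_le_one_div_of_le (by norm_num)
    linarith
  have hre : r / (100 * N) = r * e := by rw [he]; ring
  rw [hre] at h
  have hNe : (N : ℝ) * e = 1 / 100 := by rw [he]; field_simp
  have hrN : 0 ≤ r ^ N := by positivity
  have h1 : t ^ N ≤ (r * (1 + e)) ^ N := pow_le_pow_left₀ ht (by linarith) N
  have h2 : (1 + e) ^ N ≤ 102 / 100 := by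
    have h3 : 1 + e ≤ Real.exp e := by
      have := Real.add_one_le_exp e
      linarith
    have h4 : (1 + e) ^ N ≤ Real.exp e ^ N := pow_le_pow_left₀ (by linarith) h3 N
    rw [← Real.exp_nat_mul, hNe] at h4
    refine h4.trans ?_
    have h5 := Real.exp_bound' (x := 1 / 100) (by norm_num) (by norm_num) (n := 2) (by norm_num)
    refine h5.trans ?_
    norm_num [Finset.sum_range_succ, Nat.factorial]
  have h3 : (r * (1 - e)) ^ N ≤ t ^ N :=
    pow_le_pow_left₀ (mul_nonneg hr (by linarith)) (by linarith) N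
  have h4 : 1 - 1 / 100 ≤ (1 - e) ^ N := by
    have h5 := one_add_mul_le_pow (a := -e) (by linarith) N
    have h6 : 1 + (N : ℝ) * -e = 1 - 1 / 100 := by rw [mul_neg, hNe]; ring
    rw [h6] at h5
    exact h5
  rw [mul_pow] at h1 h3
  have h5 : r ^ N * (1 + e) ^ N ≤ r ^ N * (102 / 100) := mul_le_mul_of_nonneg_left h2 hrN
  have h6 : r ^ N * (1 - 1 / 100) ≤ r ^ N * (1 - e) ^ N := mul_le_mul_of_nonneg_left h4 hrN
  rw [abs_le]
  constructor <;> linarith

theorem main (hD : P_DER) : P_VAR := by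
  intro n hn c₀ j hg c hc
  have hn1 : (1 : ℝ) ≤ (n : ℝ) - 1 := by
    have : (2 : ℝ) ≤ n := by exact_mod_cast hn
    linarith
  have hL0 : 0 < ‖L n c₀ j‖ := norm_pos_iff.2 hg.L0
  set R : ℝ := 1 / (100 * ‖L n c₀ j‖) with hR
  have hR0 : 0 < R := by positivity
  have hDD : DD n c₀ j = closedBall c₀ R := rfl
  have hc0 : c₀ ∈ DD n c₀ j := by
    rw [hDD]; exact mem_closedBall_self hR0.le
  have hconv : Convex ℝ (DD n c₀ j) := by rw [hDD]; exact convex_closedBall _ _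
  have hcomp : IsCompact (DD n c₀ j) := by rw [hDD]; exact isCompact_closedBall _ _
  have hdist : ∀ w ∈ DD n c₀ j, ‖w - c₀‖ ≤ R := by
    intro w hw
    rw [hDD, mem_closedBall, dist_eq_norm] at hw
    exact hw
  have hder := fun w (hw : w ∈ DD n c₀ j) => hD n hn w j (hg.nz w hw).1 (hg.nz w hw).2
  have hLpos : ∀ w ∈ DD n c₀ j, 0 < ‖L n w j‖ := by
    intro w hw
    have h1 := hg.big w hw
    have h2 : 0 < ‖w‖ := norm_pos_iff.2 (hg.nz w hw).1
    have h3 : 0 < ((n : ℝ) - 1) / ‖w‖ := by positivity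
    linarith
  have hLne : ∀ w ∈ DD n c₀ j, L n w j ≠ 0 := fun w hw => norm_pos_iff.1 (hLpos w hw)
  -- the inverse of `L`
  have hT : ∀ w ∈ DD n c₀ j, ‖(L n w j)⁻¹ - (L n c₀ j)⁻¹‖ ≤ R := by
    intro w hw
    have h1 : ∀ x ∈ DD n c₀ j, HasDerivWithinAt (fun c => (L n c j)⁻¹)
        (-M n x j / L n x j ^ 2) (DD n c₀ j) x := fun x hx =>
      ((hder x hx).2.inv (hLne x hx)).hasDerivWithinAt
    have h2 : ∀ x ∈ DD n c₀ j, ‖-M n x j / L n x j ^ 2‖ ≤ 1 := by
      intro x hx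
      rw [norm_div, norm_neg, norm_pow, div_le_one (pow_pos (hLpos x hx) 2)]
      exact hg.nu x hx
    have h3 := hconv.norm_image_sub_le_of_norm_hasDerivWithin_le h1 h2 hc0 hw
    rw [one_mul] at h3
    exact h3.trans (hdist w hw)
  have hLL : ∀ w ∈ DD n c₀ j, ‖L n w j - L n c₀ j‖ ≤ ‖L n w j‖ / 100 := by
    intro w hw
    have h1 : L n w j - L n c₀ j = -(L n w j * L n c₀ j * ((L n w j)⁻¹ - (L n c₀ j)⁻¹)) := by
      have := hLne w hw
      have := hg.L0
      field_simp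
      ring
    rw [h1, norm_neg, norm_mul, norm_mul]
    calc ‖L n w j‖ * ‖L n c₀ j‖ * ‖(L n w j)⁻¹ - (L n c₀ j)⁻¹‖
        ≤ ‖L n w j‖ * ‖L n c₀ j‖ * R := by
          gcongr
          exact hT w hw
      _ = ‖L n w j‖ / 100 := by
          rw [hR]; field_simp
  have hLup : ∀ w ∈ DD n c₀ j, ‖L n w j‖ ≤ 100 / 99 * ‖L n c₀ j‖ := by
    intro w hw
    have h1 := hLL w hw
    have h2 := norm_sub_norm_le (L n w j) (L n c₀ j)
    linarith
  refine ⟨?_, ?_, ?_⟩
  · have h1 := hLL c hc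
    have h2 := hLup c hc
    linarith
  · obtain ⟨w₁, hw₁, hmax⟩ := hcomp.exists_isMaxOn ⟨c₀, hc0⟩
      (f := fun w => ‖X n w j‖) (fun w hw => ((hder w hw).1.continuousAt.norm).continuousWithinAt)
    set m := ‖X n w₁ j‖ with hm
    have hm' : ∀ w ∈ DD n c₀ j, ‖X n w j‖ ≤ m := fun w hw => hmax hw
    have hm0 : 0 ≤ m := norm_nonneg _
    have hX : ∀ w ∈ DD n c₀ j, ‖X n w j - X n c₀ j‖ ≤ m / 99 := by
      intro w hw
      have h1 : ∀ x ∈ DD n c₀ j, HasDerivWithinAt (fun c => X n c j)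
          (X n x j * L n x j) (DD n c₀ j) x := fun x hx => (hder x hx).1.hasDerivWithinAt
      have h2 : ∀ x ∈ DD n c₀ j, ‖X n x j * L n x j‖ ≤ m * (100 / 99 * ‖L n c₀ j‖) := by
        intro x hx
        rw [norm_mul]
        exact mul_le_mul (hm' x hx) (hLup x hx) (norm_nonneg _) hm0
      have h3 := hconv.norm_image_sub_le_of_norm_hasDerivWithin_le h1 h2 hc0 hw
      refine h3.trans ?_
      calc m * (100 / 99 * ‖L n c₀ j‖) * ‖w - c₀‖ ≤ m * (100 / 99 * ‖L n c₀ j‖) * R := by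
            gcongr
            exact hdist w hw
        _ = m / 99 := by rw [hR]; field_simp
    have h1 := hX w₁ hw₁
    have h2 := norm_sub_norm_le (X n w₁ j) (X n c₀ j)
    have h3 := hX c hc
    have h4 : m ≤ ‖X n c₀ j‖ + m / 99 := by linarith
    have h5 : 0 ≤ ‖X n c₀ j‖ := norm_nonneg _
    linarith
  · unfold Y
    rw [← mul_sub, abs_mul, abs_of_nonneg (Nat.cast_nonneg n : (0 : ℝ) ≤ n), mul_div_assoc]
    refine mul_le_mul_of_nonneg_left ?_ (Nat.cast_nonneg n)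
    refine pow_var (by omega) (norm_nonneg _) (norm_nonneg _) ?_
    have h1 : |‖c‖ - ‖c₀‖| ≤ R := (abs_norm_sub_norm_le c c₀).trans (hdist c hc)
    have h2 := hg.big c₀ hc0
    have h3 : 0 < ‖c₀‖ := norm_pos_iff.2 (hg.nz c₀ hc0).1
    have h4 : ((n - 1 : ℕ) : ℝ) = (n : ℝ) - 1 := by
      have : 1 ≤ n := by omega
      push_cast [this]
      ring
    rw [h4]
    refine h1.trans ?_
    rw [div_le_iff₀ h3] at h2
    rw [hR, div_le_div_iff₀ (by positivity) (by positivity)]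
    linarith

end Pool.Agent.W108.MB
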